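import Pool.Agent.U695.XG.Dens
import Pool.Agent.U695.XG.Lat

/-!
# The residue classes of the norms modulo 16: all four have density one quarter
-/

set_option autoImplicit false
set_option linter.unusedVariables false

open scoped Classical

namespace Pool.Agent.U695.XR.Cls

open Filter
open H385 (ZI nrm)
open Pool.Agent.U695.XG Pool.Agent.U695.XG.Dn
open Pool.Agent.Y699 (SB mem_SB)

theorem card_c (c X : ℕ) : (SS {c} X).card = (Sc c X).card := by
  rw [SS_card]
  unfold Sc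
  congr 1
  ext n
  rw [Finset.mem_filter, Finset.mem_filter, Finset.mem_singleton]

theorem ratio_c {c : ℕ} (hc : c = 1 ∨ c = 5 ∨ c = 9 ∨ c = 13) :
    Tendsto (fun X : ℕ => ((SS {c} X).card : ℝ) / ((SB X).card : ℝ)) atTop (nhds (1 / 4)) := by
  refine ratio_aux fun X hX => ?_
  have h1 := Sc_bound hc hX
  have h3 := Er_nonneg X
  rw [card_c]
  have e : ((Sc c X).card : ℝ) - (1 / 4) * ((SB X).card : ℝ) =
    ((Sc c X).card : ℝ) - ((SB X).card : ℝ) / 4 := by ring
  rw [e]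
  linarith

theorem low_of {q : Finset ℕ} {κ : ℝ} (hκ : 0 < κ)
    (h : Tendsto (fun X : ℕ => ((SS q X).card : ℝ) / ((SB X).card : ℝ)) atTop (nhds κ)) :
    S_LOW q := by
  obtain ⟨c, hc, hlow⟩ := SB_low
  obtain ⟨X₀, hX₀⟩ := eventually_atTop.1 ((h.eventually (lt_mem_nhds
    (show κ / 2 < κ by linarith))).and (hlow.and (eventually_ge_atTop 1)))
  refine ⟨κ / 2 * c, X₀, by positivity, fun X hX => ?_⟩
  obtain ⟨h1, h2, h3⟩ := hX₀ X hX
  have hX0 : (0 : ℝ) < X := by exact_mod_cast h3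
  have hp : 0 < ((SB X).card : ℝ) := lt_of_lt_of_le (by positivity) h2
  rw [lt_div_iff₀ hp] at h1
  have h4 : κ / 2 * (c * X) ≤ κ / 2 * ((SB X).card : ℝ) := mul_le_mul_of_nonneg_left h2 (by linarith)
  calc κ / 2 * c * X = κ / 2 * (c * X) := by ring
    _ ≤ _ := h4
    _ ≤ _ := h1.le

theorem low_c {c : ℕ} (hc : c = 1 ∨ c = 5 ∨ c = 9 ∨ c = 13) : S_LOW {c} :=
  low_of (by norm_num) (ratio_c hc)

theorem card_all (X : ℕ) : (SS {1, 5, 9, 13} X).card = (SB X).card := by
  rw [SS_card]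
  congr 1
  refine Finset.filter_true_of_mem fun n hn => ?_
  have h1 := Lt.nrm_mod4 (mem_SB.1 hn).2.prm
  simp only [Finset.mem_insert, Finset.mem_singleton]
  omega

theorem low_all : S_LOW {1, 5, 9, 13} := by
  obtain ⟨c, X₀, hc, h⟩ := NSf.low5
  refine ⟨c, X₀, hc, fun X hX => (h X hX).trans ?_⟩
  rw [card_all, SS_card]
  exact_mod_cast Finset.card_filter_le _ _

theorem ratio_5 : Tendsto (fun X : ℕ => ((SS {5, 13} X).card : ℝ) / ((SB X).card : ℝ)) atTop
    (nhds (1 / 2)) := ratio_aux fun X hX => SS5 hX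

/-- the share of the primary elements -/
theorem share_all : Tendsto (fun X : ℕ => ((SB X).card : ℝ) / ((Sq X).ncard : ℝ)) atTop
    (nhds (1 / 6)) := by
  have h := Sq_ratio.inv₀ (by norm_num)
  have e : ((6 : ℝ))⁻¹ = 1 / 6 := by norm_num
  rw [e] at h
  refine h.congr fun X => ?_
  rw [inv_div]

end Pool.Agent.U695.XR.Cls
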