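import Pool.Agent.U695.XG.Crt
import Pool.Agent.U695.XH.Stm

/-!
# The kernel of the Laplacian and the decompositions of a squarefree Gaussian integer

The number of the vectors in the kernel of the Laplacian of the quadratic symbols between the prime divisors
of a primary squarefree `D` is the number of the ordered decompositions `D = d d'` into primary elements that
are squares modulo each other; it is a power of two, at least two if `D ≠ 1`.
-/

set_option autoImplicit false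
set_option linter.unusedVariables false

open scoped Classical

namespace Pool.Agent.U695.XR.Dec

open Finset
open H385 (ZI nrm)
open Pool.Agent.U695.XG Pool.Agent.U695.XH
open Pool.Agent.Y699 (PP qr PD mem_PD PS PS_prod)

/-- the decompositions -/
def Dcp (D : ZI) : Set (ZI × ZI) := {p | (⟨2, 2⟩ : ZI) ∣ p.1 - 1 ∧ (⟨2, 2⟩ : ZI) ∣ p.2 - 1 ∧
  D = p.1 * p.2 ∧ (∃ b, p.1 ∣ p.2 - b ^ 2) ∧ ∃ b, p.2 ∣ p.1 - b ^ 2}

theorem one_or (a : ZMod 2) : a = 1 ∨ a = 0 := by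
  revert a
  decide

theorem sol_iff {S T : Finset ZI} (hS : ∀ π ∈ S, PP π) (hT : T ⊆ S) (v : S → ZMod 2)
    (hv : ∀ π : S, v π = 1 ↔ (π : ZI) ∈ T) :
    (∀ π : S, ∑ ρ : S, cs π ρ * (v ρ - v π) = 0) ↔
      (∀ π ∈ T, qr π (∏ ρ ∈ S \ T, ρ) = 1) ∧ ∀ π ∈ S \ T, qr π (∏ ρ ∈ T, ρ) = 1 := by
  set w : ZI → ZMod 2 := fun ρ => if ρ ∈ T then 1 else 0 with hw
  have hvw : ∀ π : S, v π = w π := by
    intro π
    rw [hw]
    by_cases h : (π : ZI) ∈ T
    · simp only [if_pos h]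
      exact (hv π).2 h
    · simp only [if_neg h]
      rcases one_or (v π) with h1 | h1
      · exact absurd ((hv π).1 h1) h
      · exact h1
  have w1 : ∀ ρ ∈ T, w ρ = 1 := fun ρ hρ => by rw [hw]; exact if_pos hρ
  have w0 : ∀ ρ, ρ ∉ T → w ρ = 0 := fun ρ hρ => by rw [hw]; exact if_neg hρ
  have hsum : ∀ π : S, ∑ ρ : S, cs π ρ * (v ρ - v π) =
      ∑ ρ ∈ S.filter (fun ρ => w ρ ≠ w π), cs π ρ := by
    intro π
    rw [← NSf.sol_sum S w π, ← Finset.sum_coe_sort S (fun ρ => cs π ρ * (w ρ - w π))]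
    exact Finset.sum_congr rfl fun ρ _ => by rw [hvw ρ, hvw π]
  have hT' : ∀ π ∈ T, PP π := fun π hπ => hS π (hT hπ)
  have hST : ∀ π ∈ S \ T, PP π := fun π hπ => hS π (mem_sdiff.1 hπ).1
  have e1 : ∀ π ∈ T, S.filter (fun ρ => w ρ ≠ w π) = S \ T := by
    intro π hπ
    ext ρ
    rw [mem_filter, mem_sdiff, w1 π hπ]
    refine and_congr_right fun _ => ?_
    by_cases h : ρ ∈ T
    · rw [w1 ρ h]
      exact ⟨fun h' => absurd rfl h', fun h' => absurd h h'⟩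
    · rw [w0 ρ h]
      exact ⟨fun _ => h, fun _ => by decide⟩
  have e0 : ∀ π ∈ S \ T, S.filter (fun ρ => w ρ ≠ w π) = T := by
    intro π hπ
    ext ρ
    rw [mem_filter, w0 π (mem_sdiff.1 hπ).2]
    by_cases h : ρ ∈ T
    · rw [w1 ρ h]
      exact ⟨fun _ => h, fun _ => ⟨hT h, by decide⟩⟩
    · rw [w0 ρ h]
      exact ⟨fun h' => absurd rfl h'.2, fun h' => absurd h' h⟩
  constructor
  · intro h
    refine ⟨fun π hπ => ?_, fun π hπ => ?_⟩
    · have h1 := h ⟨π, hT hπ⟩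
      rw [hsum] at h1
      rw [← NSf.sum_cs (hT' π hπ) hST (fun h' => (mem_sdiff.1 h').2 hπ), ← e1 π hπ]
      exact h1
    · have h1 := h ⟨π, (mem_sdiff.1 hπ).1⟩
      rw [hsum] at h1
      rw [← NSf.sum_cs (hST π hπ) hT' (mem_sdiff.1 hπ).2, ← e0 π hπ]
      exact h1
  · rintro ⟨h1, h2⟩ π
    rw [hsum]
    by_cases h : (π : ZI) ∈ T
    · rw [e1 _ h, NSf.sum_cs (hT' _ h) hST (fun h' => (mem_sdiff.1 h').2 h)]
      exact h1 _ h
    · have h3 : (π : ZI) ∈ S \ T := mem_sdiff.2 ⟨π.2, h⟩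
      rw [e0 _ h3, NSf.sum_cs (hST _ h3) hT' h]
      exact h2 _ h3

/-- the set of a vector -/
noncomputable def tv {S : Finset ZI} (v : S → ZMod 2) : Finset ZI :=
  S.filter fun π => ∃ h : π ∈ S, v ⟨π, h⟩ = 1

theorem mem_tv {S : Finset ZI} (v : S → ZMod 2) (π : S) : v π = 1 ↔ (π : ZI) ∈ tv v := by
  unfold tv
  rw [mem_filter]
  exact ⟨fun h => ⟨π.2, π.2, h⟩, fun h => h.2.2⟩

theorem tv_sub {S : Finset ZI} (v : S → ZMod 2) : tv v ⊆ S := filter_subset _ _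

/-- **the decompositions are the vectors of the kernel** -/
theorem card_dcp {D : ZI} (hD : PS D) : (Dcp D).ncard = nS (PD D) := by
  have hS : ∀ π ∈ PD D, PP π := fun π hπ => ((mem_PD hD.ne).1 hπ).1
  have hp : ∀ d : ZI, (⟨2, 2⟩ : ZI) ∣ d - 1 ↔ Pool.Agent.H304R2.EC.A1.prim d := fun d =>
    (Pool.Agent.W164.RC.prim_iff_dvd d).symm
  have hcop : ∀ d d' : ZI, D = d * d' → IsCoprime d d' := by
    intro d d' h
    have hsq := hD.sqf
    rw [h] at hsq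
    exact (squarefree_mul_iff.1 hsq).1.isCoprime
  have hmem : ∀ T : Finset ZI, T ⊆ PD D →
      ((∏ ρ ∈ T, ρ, ∏ ρ ∈ PD D \ T, ρ) ∈ Dcp D ↔
        (∀ π ∈ T, qr π (∏ ρ ∈ PD D \ T, ρ) = 1) ∧ ∀ π ∈ PD D \ T, qr π (∏ ρ ∈ T, ρ) = 1) := by
    intro T hT
    obtain ⟨p1, r1⟩ := PS_prod (fun π hπ => hS π (hT hπ) : ∀ π ∈ T, PP π)
    obtain ⟨p0, r0⟩ := PS_prod (fun π hπ => hS π (mem_sdiff.1 hπ).1 : ∀ π ∈ PD D \ T, PP π)
    have hdd : D = (∏ ρ ∈ T, ρ) * ∏ ρ ∈ PD D \ T, ρ := by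
      rw [mul_comm, Finset.prod_sdiff hT, hD.prod]
    have q1 := Crt.qr_all p1 (hcop _ _ hdd)
    have q0 := Crt.qr_all p0 (hcop _ _ hdd).symm
    rw [r1] at q1
    rw [r0] at q0
    rw [q1, q0]
    constructor
    · rintro ⟨-, -, -, h1, h2⟩
      exact ⟨h1, h2⟩
    · rintro ⟨h1, h2⟩
      exact ⟨(hp _).2 p1.prm, (hp _).2 p0.prm, hdd, h1, h2⟩
  have hsol : ∀ v : PD D → ZMod 2, (∀ π : PD D, ∑ ρ : PD D, cs π ρ * (v ρ - v π) = 0) ↔
      (∏ ρ ∈ tv v, ρ, ∏ ρ ∈ PD D \ tv v, ρ) ∈ Dcp D := fun v =>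
    (sol_iff hS (tv_sub v) v (mem_tv v)).trans (hmem _ (tv_sub v)).symm
  unfold nS
  rw [← Nat.card_coe_set_eq]
  symm
  refine Nat.card_congr (Equiv.ofBijective (fun v : {v : PD D → ZMod 2 //
    ∀ π : PD D, ∑ ρ : PD D, cs π ρ * (v ρ - v π) = 0} =>
    (⟨(∏ ρ ∈ tv v.1, ρ, ∏ ρ ∈ PD D \ tv v.1, ρ), (hsol v.1).1 v.2⟩ : Dcp D)) ⟨?_, ?_⟩)
  · intro v w hvw
    have h1 : ∏ ρ ∈ tv v.1, ρ = ∏ ρ ∈ tv w.1, ρ := (Prod.ext_iff.1 (Subtype.ext_iff.1 hvw)).1
    have h2 : tv v.1 = tv w.1 := by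
      rw [← (PS_prod (fun π hπ => hS π (tv_sub _ hπ) : ∀ π ∈ tv v.1, PP π)).2,
        ← (PS_prod (fun π hπ => hS π (tv_sub _ hπ) : ∀ π ∈ tv w.1, PP π)).2, h1]
    apply Subtype.ext
    funext π
    have h3 : v.1 π = 1 ↔ w.1 π = 1 := by rw [mem_tv, mem_tv, h2]
    have key : ∀ a b : ZMod 2, (a = 1 ↔ b = 1) → a = b := by decide
    exact key _ _ h3
  · rintro ⟨⟨d, d'⟩, hd⟩
    obtain ⟨h1, h2, h3, h4, h5⟩ := hd
    have h1' : (⟨2, 2⟩ : ZI) ∣ d - 1 := h1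
    have h2' : (⟨2, 2⟩ : ZI) ∣ d' - 1 := h2
    have h3' : D = d * d' := h3
    have hPd : PS d := hD.of_dvd ((hp d).1 h1') ⟨d', h3'⟩
    have hPd' : PS d' := hD.of_dvd ((hp d').1 h2') ⟨d, by rw [h3', mul_comm]⟩
    have hU : PD D = PD d ∪ PD d' := by
      rw [h3', Pool.Agent.Y699.PD_mul hPd.ne hPd'.ne]
    have hdis : Disjoint (PD d) (PD d') := Pool.Agent.Y699.PD_disj hPd.ne hPd'.ne (hcop d d' h3')
    have hsub : PD d ⊆ PD D := by rw [hU]; exact subset_union_left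
    have hdiff : PD D \ PD d = PD d' := by
      rw [hU]
      exact Finset.union_sdiff_cancel_left hdis
    set v : PD D → ZMod 2 := fun ρ => if (ρ : ZI) ∈ PD d then 1 else 0 with hv
    have htv : tv v = PD d := by
      ext ρ
      unfold tv
      rw [mem_filter]
      constructor
      · rintro ⟨h6, h7, h8⟩
        by_contra h9
        rw [hv] at h8
        simp only [if_neg h9] at h8
        exact absurd h8 (by decide)
      · intro h6
        refine ⟨hsub h6, hsub h6, ?_⟩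
        rw [hv]
        exact if_pos h6
    have hpair : (∏ ρ ∈ tv v, ρ, ∏ ρ ∈ PD D \ tv v, ρ) = (d, d') := by
      rw [htv, hdiff, hPd.prod, hPd'.prod]
    refine ⟨⟨v, (hsol v).2 ?_⟩, Subtype.ext hpair⟩
    rw [hpair]
    exact ⟨h1, h2, h3, h4, h5⟩

/-- the Laplacian as a linear map -/
noncomputable def LL (S : Finset ZI) : (S → ZMod 2) →ₗ[ZMod 2] (S → ZMod 2) where
  toFun v π := ∑ ρ : S, cs π ρ * (v ρ - v π)
  map_add' v w := by
    funext π
    show ∑ ρ : S, cs π ρ * ((v ρ + w ρ) - (v π + w π)) = _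
    rw [Pi.add_apply, ← Finset.sum_add_distrib]
    exact Finset.sum_congr rfl fun ρ _ => by ring
  map_smul' a v := by
    funext π
    show ∑ ρ : S, cs π ρ * (a * v ρ - a * v π) = a * ∑ ρ : S, cs π ρ * (v ρ - v π)
    rw [Finset.mul_sum]
    exact Finset.sum_congr rfl fun ρ _ => by ring

theorem nS_pow (S : Finset ZI) : nS S = 2 ^ Module.finrank (ZMod 2) (LinearMap.ker (LL S)) := by
  have h : nS S = Nat.card (LinearMap.ker (LL S)) := by
    unfold nS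
    refine Nat.card_congr (Equiv.subtypeEquivRight fun v => ?_)
    rw [LinearMap.mem_ker]
    exact ⟨fun h => funext h, fun h π => congrFun h π⟩
  rw [h, Module.natCard_eq_pow_finrank (K := ZMod 2), Nat.card_zmod]

/-- the kernel contains the constants -/
theorem nS_succ {S : Finset ZI} (hS : S.Nonempty) : ∃ r : ℕ, nS S = 2 ^ (r + 1) := by
  obtain ⟨π, hπ⟩ := hS
  rw [nS_pow]
  obtain ⟨m, hm⟩ : ∃ m, m = Module.finrank (ZMod 2) (LinearMap.ker (LL S)) := ⟨_, rfl⟩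
  rw [← hm]
  cases m with
  | succ r => exact ⟨r, rfl⟩
  | zero =>
    exfalso
    have h1 : Subsingleton (LinearMap.ker (LL S)) := Module.finrank_zero_iff.1 hm.symm
    have h2 : (fun _ => 1 : S → ZMod 2) ∈ LinearMap.ker (LL S) := by
      rw [LinearMap.mem_ker]
      funext ρ
      show ∑ ρ' : S, cs ρ ρ' * ((1 : ZMod 2) - 1) = 0
      simp
    have h3 := congrArg Subtype.val (Subsingleton.elim
      (⟨_, h2⟩ : LinearMap.ker (LL S)) 0)
    have h4 := congrFun h3 ⟨π, hπ⟩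
    exact one_ne_zero h4

end Pool.Agent.U695.XR.Dec
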