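import Pool.Agent.U695.XR.Des

/-!
# XR: the rank of `y² = x³ - D² x` over `ℚ(i)` and the kernel of the Laplacian of `D`, all primary `D`
-/

set_option autoImplicit false
set_option linter.all false

open NumberField

namespace Pool.Agent.U695.XR

open Pool.Agent.Y699
open H385 (ZI RQ im1 nrm)
open Pool.Agent.W164.RC (two2 prim_iff_dvd unit_norm unit_cases)
open Pool.Agent.U695.XG (cs)
open Pool.Agent.U695.XH (nS)

section cls

variable {F : Type} [Field F] [Algebra ZI F] [IsFractionRing ZI F]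

variable {ι : Type} [DecidableEq ι] [Fintype ι] {pr : ι → ZI}

/-- the class of the abscissa of a point -/
theorem sq_class2 (hp : PF pr) {V : Finset ι} {x y : F} (hy : y ≠ 0)
    (hxy : y ^ 2 = x ^ 3 - (algebraMap ZI F (DD pr V)) ^ 2 * x) :
    ∃ (S : Finset ι) (c : Bool) (w : F), S ⊆ V ∧ (∀ v ∈ V, ∑ i ∈ V, em pr i v *
      ((if i ∈ S then (1 : ZMod 2) else 0) + (if v ∈ S then 1 else 0)) =
        (if c then 1 else 0) * wt pr v) ∧
      x = algebraMap ZI F ((if c then im1 else 1) * DD pr S) * w ^ 2 := by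
  obtain ⟨u, S, f, b, Y, hu, hSV, hcop, hf0, hb0, hx, hE⟩ := decomp hp V hy hxy
  set z : ι → ZMod 2 := fun i => if i ∈ S then 1 else 0 with hz
  have hloc : ∀ v ∈ V, ∑ i ∈ V, em pr i v * (z i + z v) = ue u * wt pr v := by
    intro v hv
    obtain ⟨h1, h2⟩ := local_cond hp V hu hSV hcop hf0 hb0 hE hv
    have hsum : ∀ a b : ZMod 2, a + b = 0 → b = a := by decide
    by_cases hvS : v ∈ S
    · have h3 := h2 hvS
      rw [qr_unit_sg hp v hu, qr_DD_sg hp (V \ S) (fun h => (Finset.mem_sdiff.1 h).2 hvS), ← sg_add] at h3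
      have h4 := hsum _ _ (sg_eq_one h3)
      rw [← h4, ← Finset.sum_sdiff hSV]
      have h5 : ∑ i ∈ S, em pr i v * (z i + z v) = 0 := by
        refine Finset.sum_eq_zero fun i hi => ?_
        rw [hz]
        simp only [if_pos hi, if_pos hvS]
        have : (1 : ZMod 2) + 1 = 0 := by decide
        rw [this, mul_zero]
      rw [h5, add_zero]
      refine Finset.sum_congr rfl fun i hi => ?_
      rw [hz]
      simp only [if_neg (Finset.mem_sdiff.1 hi).2, if_pos hvS, zero_add, mul_one]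
    · have h3 := h1 hvS
      rw [qr_unit_sg hp v hu, qr_DD_sg hp S hvS, ← sg_add] at h3
      have h4 := hsum _ _ (sg_eq_one h3)
      rw [← h4, ← Finset.sum_sdiff hSV]
      have h5 : ∑ i ∈ V \ S, em pr i v * (z i + z v) = 0 := by
        refine Finset.sum_eq_zero fun i hi => ?_
        rw [hz]
        simp only [if_neg (Finset.mem_sdiff.1 hi).2, if_neg hvS, zero_add, mul_zero]
      rw [h5, zero_add]
      refine Finset.sum_congr rfl fun i hi => ?_
      rw [hz]
      simp only [if_pos hi, if_neg hvS, add_zero, mul_one]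
  have hsq : ∀ (c : Bool) (u0 : ZI), u = (if c then im1 else 1) * u0 ^ 2 →
      ue u = (if c then 1 else 0) → ∃ (S : Finset ι) (c : Bool) (w : F), S ⊆ V ∧
      (∀ v ∈ V, ∑ i ∈ V, em pr i v *
      ((if i ∈ S then (1 : ZMod 2) else 0) + (if v ∈ S then 1 else 0)) =
        (if c then 1 else 0) * wt pr v) ∧
      x = algebraMap ZI F ((if c then im1 else 1) * DD pr S) * w ^ 2 := by
    intro c u0 h1 h2
    refine ⟨S, c, algebraMap ZI F u0 * (algebraMap ZI F f / algebraMap ZI F b), hSV, ?_, ?_⟩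
    · intro v hv
      rw [hloc v hv, h2]
    · rw [hx, h1]
      simp only [map_mul, map_pow]
      ring
  rcases unit_cases hu with h | h | h | h
  · refine hsq false 1 (by rw [h]; decide) ?_
    rw [h]
    decide
  · refine hsq true 1 (by rw [h]; decide) ?_
    rw [h]
    unfold ue
    rw [if_neg (by decide)]
    rfl
  · refine hsq false im1 (by rw [h]; decide) ?_
    rw [h]
    unfold ue
    rw [if_pos (by decide)]
    rfl
  · refine hsq true im1 (by rw [h]; decide) ?_
    rw [h]
    unfold ue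
    rw [if_neg (by decide)]
    rfl

end cls

section rank

variable {K : Type} [Field K] [NumberField K]

/-- the extended kernel -/
abbrev KerX (D : ZI) : Type := {p : ({π : ZI // π ∈ PD D} → ZMod 2) × Bool //
  ∀ π : {π : ZI // π ∈ PD D}, ∑ ρ : {π : ZI // π ∈ PD D}, cs π ρ * (p.1 ρ - p.1 π) =
    (if p.2 then 1 else 0) * wt (fam D) π}

/-- the extended kernel is at most twice as large -/
theorem card_KerX (D : ZI) : Nat.card (KerX D) ≤ 2 * nS (PD D) := by
  have hfin : Finite (Ker D) := Subtype.finite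
  have h1 : Nat.card (Ker D) = nS (PD D) := card_Ker D
  have hlin : ∀ (v w : {π : ZI // π ∈ PD D} → ZMod 2) (b : ZMod 2),
      (∀ π : {π : ZI // π ∈ PD D}, ∑ ρ : {π : ZI // π ∈ PD D}, cs π ρ * (v ρ - v π) =
        b * wt (fam D) π) →
      (∀ π : {π : ZI // π ∈ PD D}, ∑ ρ : {π : ZI // π ∈ PD D}, cs π ρ * (w ρ - w π) =
        b * wt (fam D) π) →
      ∀ π : {π : ZI // π ∈ PD D}, ∑ ρ : {π : ZI // π ∈ PD D}, cs π ρ *
        ((v - w) ρ - (v - w) π) = 0 := by
    intro v w b hv hw π
    have h2 : ∑ ρ : {π : ZI // π ∈ PD D}, cs π ρ * ((v - w) ρ - (v - w) π) =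
        ∑ ρ : {π : ZI // π ∈ PD D}, cs π ρ * (v ρ - v π) -
          ∑ ρ : {π : ZI // π ∈ PD D}, cs π ρ * (w ρ - w π) := by
      rw [← Finset.sum_sub_distrib]
      refine Finset.sum_congr rfl fun ρ _ => ?_
      rw [Pi.sub_apply, Pi.sub_apply]
      ring
    rw [h2, hv π, hw π, sub_self]
  -- an injection into `Ker × Bool`
  by_cases hex : ∃ v0 : {π : ZI // π ∈ PD D} → ZMod 2,
      ∀ π : {π : ZI // π ∈ PD D}, ∑ ρ : {π : ZI // π ∈ PD D}, cs π ρ * (v0 ρ - v0 π) =
        1 * wt (fam D) π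
  · obtain ⟨v0, hv0⟩ := hex
    have h2 : Nat.card (Ker D × Bool) = 2 * nS (PD D) := by
      rw [Nat.card_prod, h1, Nat.card_eq_fintype_card, Fintype.card_bool, mul_comm]
    rw [← h2]
    refine Nat.card_le_card_of_injective (fun p : KerX D => ((⟨p.1.1 - (if p.1.2 then v0 else 0), ?_⟩ : Ker D),
      p.1.2)) ?_
    · by_cases hb : p.1.2 = true
      · have h3 := p.2
        rw [if_pos hb] at h3
        rw [if_pos hb]
        exact hlin _ _ 1 h3 hv0
      · have h3 := p.2
        rw [if_neg hb] at h3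
        rw [if_neg hb]
        refine hlin _ _ 0 h3 (fun π => ?_)
        simp
    · intro p q hpq
      have h3 := (Prod.ext_iff.1 hpq).2
      have h4 := congrArg Subtype.val (Prod.ext_iff.1 hpq).1
      have h3' : p.1.2 = q.1.2 := h3
      have h4' : p.1.1 - (if p.1.2 then v0 else 0) = q.1.1 - (if q.1.2 then v0 else 0) := h4
      rw [h3'] at h4'
      exact Subtype.ext (Prod.ext (sub_left_injective h4') h3')
  · have h2 : Nat.card (KerX D) ≤ Nat.card (Ker D) := by
      refine Nat.card_le_card_of_injective (fun p : KerX D => (⟨p.1.1, ?_⟩ : Ker D)) ?_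
      · have hb : ¬ p.1.2 = true := by
          intro hb
          refine hex ⟨p.1.1, ?_⟩
          have h3 := p.2
          rw [if_pos hb] at h3
          exact h3
        have h3 := p.2
        rw [if_neg hb] at h3
        intro π
        rw [h3 π, zero_mul]
      · intro p q hpq
        have h4 : p.1.1 = q.1.1 := congrArg Subtype.val hpq
        have hb : ∀ p : KerX D, p.1.2 = false := by
          intro p
          by_contra hb
          rw [Bool.not_eq_false] at hb
          refine hex ⟨p.1.1, ?_⟩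
          have h3 := p.2
          rw [if_pos hb] at h3
          exact h3
        exact Subtype.ext (Prod.ext h4 ((hb p).trans (hb q).symm))
    rw [h1] at h2
    omega

/-- the element of a pair -/
noncomputable def elX (D : ZI) (p : ({π : ZI // π ∈ PD D} → ZMod 2) × Bool) : ZI :=
  (if p.2 then im1 else 1) * el D p.1

theorem kerX_of {D : ZI} {S : Finset {π : ZI // π ∈ PD D}} {c : Bool}
    (h : ∀ v ∈ (Finset.univ : Finset {π : ZI // π ∈ PD D}),
      ∑ i ∈ (Finset.univ : Finset {π : ZI // π ∈ PD D}), em (fam D) i v *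
      ((if i ∈ S then (1 : ZMod 2) else 0) + (if v ∈ S then 1 else 0)) =
        (if c then 1 else 0) * wt (fam D) v) :
    ∃ p : KerX D, elX D p.1 = (if c then im1 else 1) * DD (fam D) S := by
  refine ⟨⟨(fun π => if π ∈ S then 1 else 0, c), fun π => ?_⟩, ?_⟩
  · refine Eq.trans ?_ (h π (Finset.mem_univ _))
    refine Finset.sum_congr rfl fun ρ _ => ?_
    have e : cs π ρ = em (fam D) ρ π := rfl
    rw [e]
    have h2 : ∀ a b : ZMod 2, a - b = a + b := by decide
    show _ * ((if ρ ∈ S then (1 : ZMod 2) else 0) - (if π ∈ S then 1 else 0)) = _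
    rw [h2]
  · unfold elX el
    show _ = _
    congr 2
    ext π
    rw [Finset.mem_filter]
    by_cases hπ : π ∈ S
    · simp [hπ]
    · simp [hπ]

/-- every point has a class given by an element of the extended kernel -/
theorem exists_class2 [DecidableEq K] (e : ZI ≃+* 𝓞 K) {D : ZI} (hD : PS D)
    {δ : K} (hδ : δ = algebraMap (𝓞 K) K (e D)) (P : (Wa (-δ ^ 2)).toAffine.Point) :
    ∃ p : KerX D, Cl (-δ ^ 2) (algebraMap (𝓞 K) K (e (elX D p.1))) P := by
  letI : Algebra ZI K := ((algebraMap (𝓞 K) K).comp (e : ZI →+* 𝓞 K)).toAlgebra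
  haveI : IsFractionRing ZI K := IsFractionRing.of_ringEquiv_left e (fun _ => rfl)
  have hp := fam_PF hD.ne
  have hal : ∀ z : ZI, algebraMap (𝓞 K) K (e z) = algebraMap ZI K z := fun z => rfl
  have hδ0 : δ ≠ 0 := by
    rw [hδ, Ne, map_eq_zero_iff _ (IsFractionRing.injective (𝓞 K) K), map_eq_zero_iff _ e.injective]
    exact hD.ne
  set j : K := algebraMap ZI K im1 with hj
  have hjj : j ^ 2 = -1 := by
    rw [hj, ← map_pow]
    have e1 : im1 ^ 2 = (-1 : ZI) := by decide
    rw [e1, map_neg, map_one]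
  have sq_neg : IsSquare (-δ ^ 2 : K) := ⟨j * δ, by linear_combination -δ ^ 2 * hjj⟩
  -- the trivial class
  obtain ⟨v0, hv0⟩ := kerX_of (D := D) (S := ∅) (c := false) (by
    intro v _
    simp)
  have e0 : algebraMap (𝓞 K) K (e (elX D v0.1)) = 1 := by
    rw [hv0]
    unfold DD
    rw [Finset.prod_empty]
    simp
  obtain ⟨v1, hv1⟩ := kerX_of (D := D) (S := Finset.univ) (c := false) (by
    intro v _
    have hz : (if false = true then (1 : ZMod 2) else 0) * wt (fam D) v = 0 := by simp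
    rw [hz]
    refine Finset.sum_eq_zero fun i _ => ?_
    rw [if_pos (Finset.mem_univ _), if_pos (Finset.mem_univ _)]
    have : (1 : ZMod 2) + 1 = 0 := by decide
    rw [this, mul_zero])
  have e1 : algebraMap (𝓞 K) K (e (elX D v1.1)) = δ := by
    rw [hv1, hD.DD, hδ]
    simp
  rcases P with _ | ⟨x, y, h⟩
  · refine ⟨v0, ?_⟩
    rw [e0]
    exact IsSquare.one
  · have hxy := eqn.1 h.1
    by_cases hy : y = 0
    · have h0 : x * ((x - δ) * (x + δ)) = 0 := by
        rw [hy] at hxy
        linear_combination -hxy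
      rcases mul_eq_zero.1 h0 with h1 | h1
      · refine ⟨v0, ?_⟩
        rw [e0]
        refine Cl_some.2 ?_
        right
        refine ⟨h1, ?_⟩
        rw [one_mul]
        exact sq_neg
      · refine ⟨v1, ?_⟩
        rw [e1]
        refine Cl_some.2 ?_
        left
        rcases mul_eq_zero.1 h1 with h2 | h2
        · have hx : x = δ := sub_eq_zero.1 h2
          rw [hx]
          exact ⟨hδ0, ⟨δ, rfl⟩⟩
        · have hx : x = -δ := eq_neg_of_add_eq_zero_left h2
          rw [hx]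
          refine ⟨neg_ne_zero.2 hδ0, ?_⟩
          have : δ * -δ = -δ ^ 2 := by ring
          rw [this]
          exact sq_neg
    · have hxy' : y ^ 2 = x ^ 3 - (algebraMap ZI K (DD (fam D) Finset.univ)) ^ 2 * x := by
        rw [hD.DD, ← hal, ← hδ, hxy]
        ring
      obtain ⟨S, c, w, -, hS, hx⟩ := sq_class2 (F := K) hp hy hxy'
      obtain ⟨v, hv⟩ := kerX_of hS
      refine ⟨v, ?_⟩
      rw [hv]
      refine Cl_some.2 ?_
      left
      have hx0 : x ≠ 0 := by
        rintro rfl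
        apply hy
        have : y ^ 2 = 0 := by rw [hxy]; ring
        exact pow_eq_zero_iff (two_ne_zero) |>.1 this
      refine ⟨hx0, ?_⟩
      rw [hal]
      refine ⟨algebraMap ZI K ((if c then im1 else 1) * DD (fam D) S) * w, ?_⟩
      rw [hx]
      ring

theorem elX_ne (e : ZI ≃+* 𝓞 K) {D : ZI} (hD : PS D) (p : ({π : ZI // π ∈ PD D} → ZMod 2) × Bool) :
    algebraMap (𝓞 K) K (e (elX D p)) ≠ 0 := by
  have h1 := el_ne e hD p.1
  unfold elX
  rw [map_mul, map_mul]
  refine mul_ne_zero ?_ h1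
  rw [Ne, map_eq_zero_iff _ (IsFractionRing.injective (𝓞 K) K), map_eq_zero_iff _ e.injective]
  split_ifs
  · decide
  · exact one_ne_zero

/-- **the rank**, all primary `D` -/
theorem rank_le_all [DecidableEq K] (e : ZI ≃+* 𝓞 K) {D : ZI} (hD : PS D) {k : ℕ}
    (hk : nS (PD D) = 2 ^ k) {δ : K} (hδ : δ = algebraMap (𝓞 K) K (e D)) :
    Module.finrank ℤ (Wa (-δ ^ 2)).toAffine.Point ≤ 2 * k := by
  have hδ0 : δ ≠ 0 := by
    rw [hδ, Ne, map_eq_zero_iff _ (IsFractionRing.injective (𝓞 K) K), map_eq_zero_iff _ e.injective]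
    exact hD.ne
  have h2 : (2 : K) ≠ 0 := two_ne_zero
  have ha : (-δ ^ 2 : K) ≠ 0 := neg_ne_zero.2 (pow_ne_zero 2 hδ0)
  have hDis : (Wa (-δ ^ 2)).Δ ≠ 0 := Wa_disc_ne h2 ha
  obtain ⟨i, hi⟩ : ∃ i : K, i ^ 2 = -1 := by
    refine ⟨algebraMap (𝓞 K) K (e im1), ?_⟩
    rw [← map_pow, ← map_pow]
    have e1 : im1 ^ 2 = (-1 : ZI) := by decide
    rw [e1, map_neg, map_neg, map_one, map_one]
  have hfg : AddGroup.FG (Wa (-δ ^ 2)).toAffine.Point :=
    Pool.Agent.Q286.EQ.mordell_weil K (Wa (-δ ^ 2)) hDis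
  have : Module.Finite ℤ (Wa (-δ ^ 2)).toAffine.Point := Module.Finite.iff_addGroup_fg.2 hfg
  choose f hf using exists_class2 e hD hδ
  have hfin : Finite (KerX D) := Subtype.finite
  -- the points of order two
  have n0 : (Wa (-δ ^ 2)).toAffine.Nonsingular 0 0 := Pool.Agent.Y700.nonsing hDis (eqn.2 (by ring))
  have n1 : (Wa (-δ ^ 2)).toAffine.Nonsingular δ 0 := Pool.Agent.Y700.nonsing hDis (eqn.2 (by ring))
  have n2 : (Wa (-δ ^ 2)).toAffine.Nonsingular (-δ) 0 :=
    Pool.Agent.Y700.nonsing hDis (eqn.2 (by ring))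
  have hy0 : ∀ (x : K) (n : (Wa (-δ ^ 2)).toAffine.Nonsingular x 0),
      (WeierstrassCurve.Affine.Point.some x 0 n : (Wa (-δ ^ 2)).toAffine.Point) + .some x 0 n = 0 := by
    intro x n
    exact WeierstrassCurve.Affine.Point.add_of_Y_eq rfl (by rw [negY_eq, neg_zero])
  have hne : δ ≠ -δ := by
    intro h
    apply hδ0
    have h3 : 2 * δ = 0 := by linear_combination h
    exact (mul_eq_zero.1 h3).resolve_left h2
  have hcard : ({0, .some 0 0 n0, .some δ 0 n1, .some (-δ) 0 n2} :
      Finset (Wa (-δ ^ 2)).toAffine.Point).card = 4 := by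
    have hz : ∀ (x : K) (n : (Wa (-δ ^ 2)).toAffine.Nonsingular x 0),
        (0 : (Wa (-δ ^ 2)).toAffine.Point) ≠ .some x 0 n := fun x n h =>
      WeierstrassCurve.Affine.Point.some_ne_zero _ h.symm
    rw [Finset.card_insert_of_notMem, Finset.card_insert_of_notMem, Finset.card_pair]
    · intro h
      rw [WeierstrassCurve.Affine.Point.some.injEq] at h
      exact hne h.1
    · rw [Finset.mem_insert, Finset.mem_singleton]
      rintro (h | h)
      · rw [WeierstrassCurve.Affine.Point.some.injEq] at h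
        exact hδ0 h.1.symm
      · rw [WeierstrassCurve.Affine.Point.some.injEq] at h
        exact hδ0 (neg_eq_zero.1 h.1.symm)
    · rw [Finset.mem_insert, Finset.mem_insert, Finset.mem_singleton]
      rintro (h | h | h)
      · exact hz _ _ h
      · exact hz _ _ h
      · exact hz _ _ h
  -- the comparison
  obtain ⟨h1, h3, h4⟩ := rank_index (phi hi hDis) (J hi hDis) (phi_phi hi hDis) (J_surj hi hDis) f
    (fun P Q h => by
      have h3 := hf P
      have h4 := hf Q
      rw [h] at h3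
      exact sub_mem h2 ha hi hDis (elX_ne e hD _) h3 h4)
  set φ := phi hi hDis with hφ
  have h5 : (φ.range ⊔ φ.ker).index ≤ φ.range.index :=
    Nat.le_of_dvd (Nat.pos_of_ne_zero h4) (AddSubgroup.index_dvd_of_le le_sup_left)
  have h6 : (φ.range ⊔ φ.ker).index ≠ 0 := by
    intro h6
    have h7 := AddSubgroup.index_dvd_of_le (le_sup_left : φ.range ≤ φ.range ⊔ φ.ker)
    rw [h6] at h7
    exact h4 (zero_dvd_iff.1 h7)
  have h7 : Nat.card ((zsmulAddGroupHom (α := (Wa (-δ ^ 2)).toAffine.Point) 2).ker) ≠ 0 := by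
    intro h7
    rw [h7, mul_zero] at h1
    exact (mul_ne_zero h6 h4) h1.symm
  have hfin2 : Finite ((zsmulAddGroupHom (α := (Wa (-δ ^ 2)).toAffine.Point) 2).ker) :=
    Nat.finite_of_card_ne_zero h7
  have h8 := card_two_ge ({0, .some 0 0 n0, .some δ 0 n1, .some (-δ) 0 n2} :
      Finset (Wa (-δ ^ 2)).toAffine.Point) (fun P hP => by
    simp only [Finset.mem_insert, Finset.mem_singleton] at hP
    rcases hP with rfl | rfl | rfl | rfl
    · exact add_zero _
    · exact hy0 _ _
    · exact hy0 _ _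
    · exact hy0 _ _)
  rw [hcard] at h8
  have h9 : Nat.card (KerX D) ≤ 2 ^ (k + 1) := by
    refine (card_KerX D).trans ?_
    rw [hk, pow_succ]
    omega
  have h10 := h3.trans h9
  have h11 : 2 ^ (Module.finrank ℤ (Wa (-δ ^ 2)).toAffine.Point) * 4 ≤ 2 ^ (k + 1) * 2 ^ (k + 1) := by
    refine (Nat.mul_le_mul_left _ h8).trans ?_
    rw [h1]
    exact Nat.mul_le_mul (h5.trans h10) h10
  have h12 : 2 ^ (Module.finrank ℤ (Wa (-δ ^ 2)).toAffine.Point) * 2 ^ 2 ≤ 2 ^ (2 * k) * 2 ^ 2 := by
    calc 2 ^ (Module.finrank ℤ (Wa (-δ ^ 2)).toAffine.Point) * 2 ^ 2 ≤ 2 ^ (k + 1) * 2 ^ (k + 1) := h11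
      _ = 2 ^ (2 * k) * 2 ^ 2 := by ring
  have h13 := Nat.le_of_mul_le_mul_right h12 (by norm_num)
  exact (Nat.pow_le_pow_iff_right (by norm_num)).1 h13

end rank

end Pool.Agent.U695.XR
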