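import Pool.Agent.U695.XR.Cm
import Pool.Agent.Q286.EQ.MW

/-!
# The rank of `y² = x³ + a x` over a number field with a square root of `- 1` is even
-/

set_option autoImplicit false
set_option linter.unusedVariables false

open scoped Classical

namespace Pool.Agent.U695.XR

theorem even_rank {A : Type} [AddCommGroup A] [Module.Finite ℤ A] (J : A →+ A)
    (hJ : ∀ P, J (J P) = -P) : Even (Module.finrank ℤ A) := by
  set N : Submodule ℤ A := Submodule.torsion ℤ A with hN
  have hr : Module.finrank ℤ (A ⧸ N) = Module.finrank ℤ A := finrank_quotient_eq_of_le_torsion le_rfl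
  rw [← hr]
  have hfin : Module.Finite ℤ (A ⧸ N) := inferInstance
  have htf : Module.IsTorsionFree ℤ (A ⧸ N) := by
    rw [hN]
    infer_instance
  have hfree : Module.Free ℤ (A ⧸ N) := inferInstance
  have hle : N ≤ N.comap J.toIntLinearMap := by
    intro x hx
    rw [Submodule.mem_comap]
    rw [hN, Submodule.mem_torsion_iff] at hx ⊢
    obtain ⟨a, ha⟩ := hx
    refine ⟨a, ?_⟩
    have h1 : a • J x = J (a • x) := by
      show (a : ℤ) • J x = J ((a : ℤ) • x)
      rw [map_zsmul]
    show a • J x = 0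
    rw [h1, ha, map_zero]
  set j : (A ⧸ N) →ₗ[ℤ] (A ⧸ N) := N.mapQ N J.toIntLinearMap hle with hj
  have hjj : j * j = -1 := by
    apply LinearMap.ext
    intro x
    induction x using Submodule.Quotient.induction_on with
    | _ x =>
      show j (j (Submodule.Quotient.mk x)) = -Submodule.Quotient.mk x
      rw [hj, Submodule.mapQ_apply, Submodule.mapQ_apply]
      show Submodule.Quotient.mk (J (J x)) = _
      rw [hJ, Submodule.Quotient.mk_neg]
  have hd := congrArg LinearMap.det hjj
  rw [map_mul] at hd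
  have h1 : LinearMap.det (-1 : (A ⧸ N) →ₗ[ℤ] (A ⧸ N)) = (-1) ^ Module.finrank ℤ (A ⧸ N) := by
    have h2 := LinearMap.det_smul (-1 : ℤ) (1 : (A ⧸ N) →ₗ[ℤ] (A ⧸ N))
    rw [map_one, mul_one] at h2
    rw [← h2]
    congr 1
    rw [neg_smul, one_smul]
  rw [h1] at hd
  by_contra hodd
  rw [Nat.not_even_iff_odd] at hodd
  rw [hodd.neg_one_pow] at hd
  have := mul_self_nonneg (LinearMap.det j)
  omega

theorem even_Wa {K : Type} [Field K] [NumberField K] [DecidableEq K] {i a : K} (hi : i ^ 2 = -1)
    (ha : a ≠ 0) : Module.Finite ℤ (Wa a).toAffine.Point ∧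
      Even (Module.finrank ℤ (Wa a).toAffine.Point) := by
  have hD : (Wa a).Δ ≠ 0 := Wa_disc_ne two_ne_zero ha
  have hfg : AddGroup.FG (Wa a).toAffine.Point := Pool.Agent.Q286.EQ.mordell_weil K (Wa a) hD
  have hf : Module.Finite ℤ (Wa a).toAffine.Point := Module.Finite.iff_addGroup_fg.2 hfg
  exact ⟨hf, even_rank (J hi hD) (J_J hi hD)⟩

end Pool.Agent.U695.XR
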