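import Pool.Agent.Y700.VC
import Pool.Agent.TeamU.B1

/-!
# XR: descent by the endomorphism `1 + i` of the curve `y² = x³ + a x`
-/

set_option autoImplicit false
set_option linter.all false

namespace Pool.Agent.U695.XR

open WeierstrassCurve Polynomial

variable {K : Type} [Field K]

/-- the curve `y² = x³ + a x` -/
def Wa (a : K) : WeierstrassCurve K := ⟨0, 0, 0, a, 0⟩

variable {a : K}

theorem Wa_disc (a : K) : (Wa a).Δ = -64 * a ^ 3 := by
  simp only [Wa, WeierstrassCurve.Δ, WeierstrassCurve.b₂, WeierstrassCurve.b₄, WeierstrassCurve.b₆,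
    WeierstrassCurve.b₈]
  ring

theorem Wa_disc_ne (h2 : (2 : K) ≠ 0) (ha : a ≠ 0) : (Wa a).Δ ≠ 0 := by
  rw [Wa_disc]
  have h64 : (-64 : K) = -(2 ^ 6) := by norm_num
  rw [h64]
  exact mul_ne_zero (neg_ne_zero.2 (pow_ne_zero _ h2)) (pow_ne_zero _ ha)

theorem eqn {x y : K} : (Wa a).toAffine.Equation x y ↔ y ^ 2 = x ^ 3 + a * x := by
  rw [Affine.equation_iff]
  simp only [Wa]
  constructor
  · intro h
    linear_combination h
  · intro h
    linear_combination h

theorem negY_eq (x y : K) : (Wa a).toAffine.negY x y = -y := by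
  simp only [Affine.negY, Wa]
  ring

/-- `c` is the class of the abscissa of `P` modulo squares -/
def Cl (a : K) (c : K) : (Wa a).toAffine.Point → Prop
  | 0 => IsSquare c
  | .some x _ _ => (x ≠ 0 ∧ IsSquare (c * x)) ∨ (x = 0 ∧ IsSquare (c * a))

theorem Cl_zero {c : K} : Cl a c (0 : (Wa a).toAffine.Point) ↔ IsSquare c := Iff.rfl

theorem Cl_some {c x y : K} {h : (Wa a).toAffine.Nonsingular x y} :
    Cl a c (.some x y h) ↔ (x ≠ 0 ∧ IsSquare (c * x)) ∨ (x = 0 ∧ IsSquare (c * a)) := Iff.rfl

theorem sq_of {A B C u : K} (hA : IsSquare A) (hB : IsSquare B) (h : A * B * u ^ 2 = C) :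
    IsSquare C := by
  rw [← h]
  exact (hA.mul hB).mul (IsSquare.sq u)

section line

variable [DecidableEq K] {x1 y1 x2 y2 : K}

/-- the relations of three collinear points -/
theorem rel (h1 : (Wa a).toAffine.Equation x1 y1) (h2 : (Wa a).toAffine.Equation x2 y2)
    (hxy : ¬(x1 = x2 ∧ y1 = (Wa a).toAffine.negY x2 y2)) :
    ∃ ν ℓ : K, (Wa a).toAffine.addX x1 x2 ((Wa a).toAffine.slope x1 x2 y1 y2) =
        ℓ ^ 2 - x1 - x2 ∧
      x1 * x2 * (Wa a).toAffine.addX x1 x2 ((Wa a).toAffine.slope x1 x2 y1 y2) = ν ^ 2 ∧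
      x1 * x2 + (x1 + x2) * (Wa a).toAffine.addX x1 x2 ((Wa a).toAffine.slope x1 x2 y1 y2) =
        a - 2 * ℓ * ν := by
  have h := Affine.addPolynomial_slope h1 h2 hxy
  set ℓ := (Wa a).toAffine.slope x1 x2 y1 y2 with hℓ
  set x3 := (Wa a).toAffine.addX x1 x2 ℓ with hx3
  have e3 : x3 = ℓ ^ 2 - x1 - x2 := by
    rw [hx3]
    simp only [Affine.addX, Wa]
    ring
  rw [Affine.addPolynomial_eq, Cubic.toPoly] at h
  have k0 := congrArg (fun p : K[X] => p.eval 0) h
  have k1 := congrArg (fun p : K[X] => p.eval 1) h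
  simp only [Wa, eval_neg, eval_add, eval_mul, eval_C, eval_pow, eval_X, eval_sub, map_one,
    eval_one] at k0 k1
  refine ⟨y1 - ℓ * x1, ℓ, e3, ?_, ?_⟩
  · linear_combination -k0
  · linear_combination k1 + e3 - k0

end line

section add

variable [DecidableEq K]

theorem cl_add (ha : a ≠ 0) {c c' : K} (hc : c ≠ 0) (hc' : c' ≠ 0)
    {P Q : (Wa a).toAffine.Point} (hP : Cl a c P) (hQ : Cl a c' Q) : Cl a (c * c') (P + Q) := by
  match P, Q with
  | 0, Q =>
    rw [Cl_zero] at hP
    have e : (0 : (Wa a).toAffine.Point) + Q = Q := zero_add Q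
    rw [e]
    match Q with
    | 0 =>
      rw [Cl_zero] at hQ ⊢
      exact hP.mul hQ
    | .some x y h =>
      rw [Cl_some] at hQ ⊢
      rcases hQ with ⟨h1, h2⟩ | ⟨h1, h2⟩
      · exact Or.inl ⟨h1, sq_of hP h2 (u := 1) (by ring)⟩
      · exact Or.inr ⟨h1, sq_of hP h2 (u := 1) (by ring)⟩
  | .some x1 y1 p1, 0 =>
    rw [Cl_zero] at hQ
    have e : (Affine.Point.some x1 y1 p1 : (Wa a).toAffine.Point) + 0 = .some x1 y1 p1 := add_zero _
    rw [e]
    rw [Cl_some] at hP ⊢
    rcases hP with ⟨h1, h2⟩ | ⟨h1, h2⟩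
    · exact Or.inl ⟨h1, sq_of h2 hQ (u := 1) (by ring)⟩
    · exact Or.inr ⟨h1, sq_of h2 hQ (u := 1) (by ring)⟩
  | .some x1 y1 p1, .some x2 y2 p2 =>
    rw [Cl_some] at hP hQ
    by_cases hxy : x1 = x2 ∧ y1 = (Wa a).toAffine.negY x2 y2
    · rw [Affine.Point.add_of_Y_eq hxy.1 hxy.2]
      show IsSquare (c * c')
      rcases hP with ⟨h1, h2⟩ | ⟨h1, h2⟩
      · rcases hQ with ⟨h3, h4⟩ | ⟨h3, h4⟩
        · exact sq_of h2 h4 (u := 1 / x1) (by rw [← hxy.1]; field_simp)
        · exact absurd (hxy.1.trans h3) h1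
      · rcases hQ with ⟨h3, h4⟩ | ⟨h3, h4⟩
        · exact absurd (hxy.1.symm.trans h1) h3
        · exact sq_of h2 h4 (u := 1 / a) (by field_simp)
    · rw [Affine.Point.add_some hxy]
      obtain ⟨ν, ℓ, r1, r2, r3⟩ := rel p1.1 p2.1 hxy
      rw [Cl_some]
      set x3 := (Wa a).toAffine.addX x1 x2 ((Wa a).toAffine.slope x1 x2 y1 y2) with hx3
      rcases hP with ⟨h1, h2⟩ | ⟨h1, h2⟩
      · rcases hQ with ⟨h3, h4⟩ | ⟨h3, h4⟩
        · by_cases h5 : x3 = 0
          · right
            refine ⟨h5, ?_⟩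
            have h6 : ν = 0 := by
              rw [h5, mul_zero] at r2
              exact pow_eq_zero_iff (two_ne_zero) |>.1 r2.symm
            have h7 : x1 * x2 = a := by
              rw [h5, h6] at r3
              linear_combination r3
            refine sq_of h2 h4 (u := 1) ?_
            rw [← h7]
            ring
          · left
            refine ⟨h5, sq_of h2 h4 (u := ν / (x1 * x2)) ?_⟩
            rw [div_pow, ← r2]
            field_simp
        · -- `Q` is the point of order two
          have h6 : ν = 0 := by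
            rw [h3, mul_zero, zero_mul] at r2
            exact pow_eq_zero_iff (two_ne_zero) |>.1 r2.symm
          have h7 : x1 * x3 = a := by
            rw [h3, h6] at r3
            linear_combination r3
          have h8 : x3 ≠ 0 := by
            intro h
            rw [h, mul_zero] at h7
            exact ha h7.symm
          left
          refine ⟨h8, sq_of h2 h4 (u := 1 / x1) ?_⟩
          rw [← h7]
          field_simp
      · have h6 : ν = 0 := by
          rw [h1, zero_mul, zero_mul] at r2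
          exact pow_eq_zero_iff (two_ne_zero) |>.1 r2.symm
        have h7 : x2 * x3 = a := by
          rw [h1, h6] at r3
          linear_combination r3
        have h8 : x3 ≠ 0 := by
          intro h
          rw [h, mul_zero] at h7
          exact ha h7.symm
        have h9 : x2 ≠ 0 := by
          intro h
          rw [h, zero_mul] at h7
          exact ha h7.symm
        rcases hQ with ⟨h3, h4⟩ | ⟨h3, h4⟩
        · left
          refine ⟨h8, sq_of h2 h4 (u := 1 / x2) ?_⟩
          rw [← h7]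
          field_simp
        · exact absurd h3 h9

theorem cl_neg {c : K} {P : (Wa a).toAffine.Point} (hP : Cl a c P) : Cl a c (-P) := by
  match P with
  | 0 => exact hP
  | .some x y h => exact hP

end add

/-! ### the endomorphism -/

section endo

variable {i : K}

theorem vr (hi : i ^ 2 = -1) : Pool.Agent.Y700.VR (Wa a) (Wa a) i 0 0 0 where
  u0 := by
    rintro rfl
    have : (0 : K) ^ 2 = 0 := by ring
    rw [this] at hi
    have h1 : (1 : K) = 0 := by linear_combination hi
    exact one_ne_zero h1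
  e1 := by simp [Wa]
  e2 := by simp [Wa]
  e3 := by simp [Wa]
  e4 := by
    have : i ^ 4 = 1 := by linear_combination (i ^ 2 - 1) * hi
    simp [Wa, this]
  e6 := by simp [Wa]

variable [DecidableEq K]

/-- the automorphism `(x, y) ↦ (- x, - i y)` -/
noncomputable def J (hi : i ^ 2 = -1) (hD : (Wa a).Δ ≠ 0) :
    (Wa a).toAffine.Point →+ (Wa a).toAffine.Point :=
  ((vr hi).equiv hD).toAddMonoidHom

theorem J_surj (hi : i ^ 2 = -1) (hD : (Wa a).Δ ≠ 0) : Function.Surjective (J hi hD) :=
  ((vr hi).equiv hD).surjective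

theorem J_some (hi : i ^ 2 = -1) (hD : (Wa a).Δ ≠ 0) {x y : K}
    (h : (Wa a).toAffine.Nonsingular x y) :
    ∃ h', J hi hD (.some x y h) = .some (-x) (-(i * y)) h' := by
  have e1 : J hi hD (.some x y h) = (vr hi).fn hD (.some x y h) := rfl
  rw [e1, Pool.Agent.Y700.VR.fn_some]
  have e2 : i ^ 2 * x + 0 = -x := by rw [hi]; ring
  have e3 : i ^ 3 * y + i ^ 2 * 0 * x + 0 = -(i * y) := by
    have : i ^ 3 = -i := by linear_combination i * hi
    rw [this]
    ring
  have key : ∀ (u v : K) (hu : u = -x) (hv : v = -(i * y)) (hn : (Wa a).toAffine.Nonsingular u v),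
      ∃ h', (Affine.Point.some u v hn : (Wa a).toAffine.Point) = .some (-x) (-(i * y)) h' := by
    rintro u v rfl rfl hn
    exact ⟨hn, rfl⟩
  exact key _ _ e2 e3 _

theorem J_J (hi : i ^ 2 = -1) (hD : (Wa a).Δ ≠ 0) (P : (Wa a).toAffine.Point) :
    J hi hD (J hi hD P) = -P := by
  match P with
  | 0 =>
    have e : J hi hD (0 : (Wa a).toAffine.Point) = 0 := map_zero _
    rw [e, e, neg_zero]
  | .some x y h =>
    obtain ⟨h1, e1⟩ := J_some hi hD h
    rw [e1]
    obtain ⟨h2, e2⟩ := J_some hi hD h1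
    rw [e2, Affine.Point.neg_some, Affine.Point.some.injEq, negY_eq]
    refine ⟨by ring, ?_⟩
    linear_combination y * hi

/-- the endomorphism `1 + J` -/
noncomputable def phi (hi : i ^ 2 = -1) (hD : (Wa a).Δ ≠ 0) :
    (Wa a).toAffine.Point →+ (Wa a).toAffine.Point := AddMonoidHom.id _ + J hi hD

theorem phi_apply (hi : i ^ 2 = -1) (hD : (Wa a).Δ ≠ 0) (P : (Wa a).toAffine.Point) :
    phi hi hD P = P + J hi hD P := rfl

theorem phi_phi (hi : i ^ 2 = -1) (hD : (Wa a).Δ ≠ 0) (P : (Wa a).toAffine.Point) :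
    phi hi hD (phi hi hD P) = J hi hD P + J hi hD P := by
  rw [phi_apply, phi_apply, map_add, J_J]
  abel

/-- a point whose class is trivial is in the image -/
theorem mem_range (h2 : (2 : K) ≠ 0) (ha : a ≠ 0) (hi : i ^ 2 = -1) (hD : (Wa a).Δ ≠ 0)
    {P : (Wa a).toAffine.Point} (hP : Cl a 1 P) : P ∈ (phi hi hD).range := by
  have hi0 : i ≠ 0 := (vr (a := a) hi).u0
  match P with
  | 0 => exact zero_mem _
  | .some x y h =>
    rw [Cl_some] at hP
    rcases hP with ⟨hx, w, hw⟩ | ⟨hx, s, hs⟩
    · rw [one_mul] at hw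
      have hw0 : w ≠ 0 := by
        rintro rfl
        exact hx (by rw [hw]; ring)
      have hy := eqn.1 h.1
      obtain ⟨b, hb⟩ : ∃ b, b = y / w := ⟨_, rfl⟩
      have hbw : b * w = y := by rw [hb]; field_simp
      have hb2 : b ^ 2 = w ^ 4 + a := by
        have h3 : b ^ 2 * w ^ 2 = (w ^ 4 + a) * w ^ 2 := by
          rw [← mul_pow, hbw, hy, hw]
          ring
        exact mul_right_cancel₀ (pow_ne_zero 2 hw0) h3
      obtain ⟨X, hX⟩ : ∃ X, X = -(i * (w ^ 2 + b)) := ⟨_, rfl⟩
      have hX0 : X ≠ 0 := by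
        intro h0
        have h3 : w ^ 2 + b = 0 := by
          rw [hX, neg_eq_zero] at h0
          exact (mul_eq_zero.1 h0).resolve_left hi0
        apply ha
        linear_combination -hb2 + (b - w ^ 2) * h3
      have hXX : X ^ 2 + 2 * i * w ^ 2 * X + a = 0 := by
        rw [hX]
        linear_combination ((w ^ 2 + b) ^ 2 - 2 * w ^ 2 * (w ^ 2 + b)) * hi - hb2
      obtain ⟨Y, hY⟩ : ∃ Y, Y = (1 - i) * w * X := ⟨_, rfl⟩
      have hYY : Y ^ 2 = X ^ 3 + a * X := by
        rw [hY]
        linear_combination (w ^ 2 * X ^ 2) * hi - X * hXX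
      have hns : (Wa a).toAffine.Nonsingular X Y := Pool.Agent.Y700.nonsing hD (eqn.2 hYY)
      refine ⟨.some X Y hns, ?_⟩
      obtain ⟨h', e⟩ := J_some hi hD hns
      rw [phi_apply, e]
      have hne : X ≠ -X := by
        intro h3
        apply hX0
        have h4 : 2 * X = 0 := by linear_combination h3
        exact (mul_eq_zero.1 h4).resolve_left h2
      rw [Affine.Point.add_of_X_ne hne, Affine.Point.some.injEq]
      have hsl : (Wa a).toAffine.slope X (-X) Y (-(i * Y)) = w := by
        rw [Affine.slope_of_X_ne hne]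
        have h5 : X - -X = 2 * X := by ring
        rw [h5, div_eq_iff (mul_ne_zero h2 hX0), hY]
        linear_combination -(w * X) * hi
      rw [hsl]
      constructor
      · simp only [Affine.addX, Wa]
        rw [hw]
        ring
      · simp only [Affine.addY, Affine.negAddY, Affine.negY, Affine.addX, Wa]
        rw [← hbw, hY, hX]
        linear_combination -(w * (w ^ 2 + b)) * hi
    · -- the point of order two
      rw [one_mul] at hs
      have hy := eqn.1 h.1
      have hy0 : y = 0 := by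
        rw [hx] at hy
        have h3 : y ^ 2 = 0 := by rw [hy]; ring
        exact pow_eq_zero_iff (two_ne_zero) |>.1 h3
      subst hx hy0
      have hs0 : s ≠ 0 := by
        rintro rfl
        exact ha (by rw [hs]; ring)
      have hX0 : i * s ≠ 0 := mul_ne_zero hi0 hs0
      have hYY : (0 : K) ^ 2 = (i * s) ^ 3 + a * (i * s) := by
        rw [hs]
        linear_combination -(i * s ^ 3) * hi
      have hns : (Wa a).toAffine.Nonsingular (i * s) 0 := Pool.Agent.Y700.nonsing hD (eqn.2 hYY)
      refine ⟨.some (i * s) 0 hns, ?_⟩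
      obtain ⟨h', e⟩ := J_some hi hD hns
      rw [phi_apply, e]
      have hne : i * s ≠ -(i * s) := by
        intro h3
        apply hX0
        have h4 : 2 * (i * s) = 0 := by linear_combination h3
        exact (mul_eq_zero.1 h4).resolve_left h2
      rw [Affine.Point.add_of_X_ne hne, Affine.Point.some.injEq]
      have hsl : (Wa a).toAffine.slope (i * s) (-(i * s)) 0 (-(i * 0)) = 0 := by
        rw [Affine.slope_of_X_ne hne, mul_zero, neg_zero, sub_zero, zero_div]
      rw [hsl]
      constructor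
      · simp only [Affine.addX, Wa]
        ring
      · simp only [Affine.addY, Affine.negAddY, Affine.negY, Affine.addX, Wa]
        ring

/-- the class of a point in the image is trivial (for the point of order two see `cl_two`) -/
theorem sub_mem (h2 : (2 : K) ≠ 0) (ha : a ≠ 0) (hi : i ^ 2 = -1) (hD : (Wa a).Δ ≠ 0) {c : K}
    (hc : c ≠ 0) {P Q : (Wa a).toAffine.Point} (hP : Cl a c P) (hQ : Cl a c Q) :
    P - Q ∈ (phi hi hD).range := by
  refine mem_range h2 ha hi hD ?_
  have h1 := cl_add ha hc hc hP (cl_neg hQ)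
  rw [sub_eq_add_neg]
  have key : ∀ R : (Wa a).toAffine.Point, Cl a (c * c) R → Cl a 1 R := by
    intro R hR
    match R with
    | 0 => exact IsSquare.one
    | .some x y h =>
      rw [Cl_some] at hR ⊢
      have e : ∀ z : K, IsSquare (c * c * z) → IsSquare (1 * z) := by
        intro z hz
        exact sq_of hz IsSquare.one (u := 1 / c) (by field_simp)
      rcases hR with ⟨h3, h4⟩ | ⟨h3, h4⟩
      · exact Or.inl ⟨h3, e _ h4⟩
      · exact Or.inr ⟨h3, e _ h4⟩
  exact key _ h1

end endo

end Pool.Agent.U695.XR
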