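import Pool.Agent.U695.XR.Idx
import Pool.Agent.U695.XH.Fin
import Pool.Agent.Y699.Crit
import Pool.Agent.Q286.EQ.MW

/-!
# XR: the rank of `y² = x³ - D² x` over `ℚ(i)` and the kernel of the Laplacian of `D`
-/

set_option autoImplicit false
set_option linter.all false

open NumberField

namespace Pool.Agent.U695.XR

open Pool.Agent.Y699
open H385 (ZI RQ im1 nrm)
open Pool.Agent.W164.RC (two2 prim_iff_dvd unit_norm unit_cases)
open Pool.Agent.U695.XG (cs)
open Pool.Agent.U695.XH (nS)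

section cls

variable {F : Type} [Field F] [Algebra ZI F] [IsFractionRing ZI F]

variable {ι : Type} [DecidableEq ι] [Fintype ι] {pr : ι → ZI}

/-- **the class of the abscissa of a point is given by an element of the kernel** -/
theorem sq_class (hp : PF pr) {V : Finset ι} (hw : ∑ i ∈ V, wt pr i = 1) {x y : F} (hy : y ≠ 0)
    (hxy : y ^ 2 = x ^ 3 - (algebraMap ZI F (DD pr V)) ^ 2 * x) :
    ∃ (S : Finset ι) (w : F), S ⊆ V ∧ (∀ v ∈ V, ∑ i ∈ V, em pr i v *
      ((if i ∈ S then (1 : ZMod 2) else 0) + (if v ∈ S then 1 else 0)) = 0) ∧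
      x = algebraMap ZI F (DD pr S) * w ^ 2 := by
  obtain ⟨u, S, f, b, Y, hu, hSV, hcop, hf0, hb0, hx, hE⟩ := decomp hp V hy hxy
  set z : ι → ZMod 2 := fun i => if i ∈ S then 1 else 0 with hz
  have hloc : ∀ v ∈ V, ∑ i ∈ V, em pr i v * (z i + z v) = ue u * wt pr v := by
    intro v hv
    obtain ⟨h1, h2⟩ := local_cond hp V hu hSV hcop hf0 hb0 hE hv
    have hsum : ∀ a b : ZMod 2, a + b = 0 → b = a := by decide
    by_cases hvS : v ∈ S
    · have h3 := h2 hvS
      rw [qr_unit_sg hp v hu, qr_DD_sg hp (V \ S) (fun h => (Finset.mem_sdiff.1 h).2 hvS), ← sg_add] at h3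
      have h4 := hsum _ _ (sg_eq_one h3)
      rw [← h4, ← Finset.sum_sdiff hSV]
      have h5 : ∑ i ∈ S, em pr i v * (z i + z v) = 0 := by
        refine Finset.sum_eq_zero fun i hi => ?_
        rw [hz]
        simp only [if_pos hi, if_pos hvS]
        have : (1 : ZMod 2) + 1 = 0 := by decide
        rw [this, mul_zero]
      rw [h5, add_zero]
      refine Finset.sum_congr rfl fun i hi => ?_
      rw [hz]
      simp only [if_neg (Finset.mem_sdiff.1 hi).2, if_pos hvS, zero_add, mul_one]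
    · have h3 := h1 hvS
      rw [qr_unit_sg hp v hu, qr_DD_sg hp S hvS, ← sg_add] at h3
      have h4 := hsum _ _ (sg_eq_one h3)
      rw [← h4, ← Finset.sum_sdiff hSV]
      have h5 : ∑ i ∈ V \ S, em pr i v * (z i + z v) = 0 := by
        refine Finset.sum_eq_zero fun i hi => ?_
        rw [hz]
        simp only [if_neg (Finset.mem_sdiff.1 hi).2, if_neg hvS, zero_add, mul_zero]
      rw [h5, zero_add]
      refine Finset.sum_congr rfl fun i hi => ?_
      rw [hz]
      simp only [if_pos hi, if_neg hvS, add_zero, mul_one]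
  have hue : ue u = 0 := by
    have h1 : ∑ v ∈ V, ∑ i ∈ V, em pr i v * (z i + z v) = ue u := by
      rw [Finset.sum_congr rfl hloc, ← Finset.mul_sum, hw, mul_one]
    rw [← h1]
    have h2 : ∑ v ∈ V, ∑ i ∈ V, em pr i v * (z i + z v) =
        ∑ v ∈ V, ∑ i ∈ V, em pr i v * z i + ∑ v ∈ V, ∑ i ∈ V, em pr i v * z v := by
      rw [← Finset.sum_add_distrib]
      refine Finset.sum_congr rfl fun v _ => ?_
      rw [← Finset.sum_add_distrib]
      refine Finset.sum_congr rfl fun i _ => by ring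
    rw [h2]
    have h3 : ∑ v ∈ V, ∑ i ∈ V, em pr i v * z v = ∑ v ∈ V, ∑ i ∈ V, em pr i v * z i := by
      rw [Finset.sum_comm]
      refine Finset.sum_congr rfl fun v _ => Finset.sum_congr rfl fun i _ => by rw [em_symm hp]
    rw [h3]
    have : ∀ a : ZMod 2, a + a = 0 := by decide
    exact this _
  obtain ⟨u0, hu0⟩ : ∃ u0 : ZI, u = u0 ^ 2 := by
    rcases unit_cases hu with h | h | h | h
    · exact ⟨1, by rw [h]; ring⟩
    · exfalso
      rw [h] at hue
      revert hue
      unfold ue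
      rw [if_neg (by decide)]
      decide
    · exact ⟨im1, h⟩
    · exfalso
      rw [h] at hue
      revert hue
      unfold ue
      rw [if_neg (by decide)]
      decide
  refine ⟨S, algebraMap ZI F u0 * (algebraMap ZI F f / algebraMap ZI F b), hSV, ?_, ?_⟩
  · intro v hv
    rw [hloc v hv, hue, zero_mul]
  · rw [hx, hu0, map_mul, map_pow]
    ring

end cls

section rank

variable {K : Type} [Field K] [NumberField K]

/-- the kernel -/
abbrev Ker (D : ZI) : Type := {v : {π : ZI // π ∈ PD D} → ZMod 2 //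
  ∀ π : {π : ZI // π ∈ PD D}, ∑ ρ : {π : ZI // π ∈ PD D}, cs π ρ * (v ρ - v π) = 0}

theorem card_Ker (D : ZI) : Nat.card (Ker D) = nS (PD D) := rfl

/-- the element of `ℤ[i]` of a vector -/
noncomputable def el (D : ZI) (v : {π : ZI // π ∈ PD D} → ZMod 2) : ZI :=
  DD (fam D) (Finset.univ.filter fun π => v π = 1)

theorem ker_of {D : ZI} {S : Finset {π : ZI // π ∈ PD D}}
    (h : ∀ v ∈ (Finset.univ : Finset {π : ZI // π ∈ PD D}),
      ∑ i ∈ (Finset.univ : Finset {π : ZI // π ∈ PD D}), em (fam D) i v *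
      ((if i ∈ S then (1 : ZMod 2) else 0) + (if v ∈ S then 1 else 0)) = 0) :
    ∃ v : Ker D, el D v.1 = DD (fam D) S := by
  refine ⟨⟨fun π => if π ∈ S then 1 else 0, fun π => ?_⟩, ?_⟩
  · refine Eq.trans ?_ (h π (Finset.mem_univ _))
    refine Finset.sum_congr rfl fun ρ _ => ?_
    have e : cs π ρ = em (fam D) ρ π := rfl
    rw [e]
    have h2 : ∀ a b : ZMod 2, a - b = a + b := by decide
    rw [h2]
  · unfold el
    congr 1
    ext π
    rw [Finset.mem_filter]
    by_cases hπ : π ∈ S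
    · simp [hπ]
    · simp [hπ]

/-- every point has a class given by an element of the kernel -/
theorem exists_class [DecidableEq K] (e : ZI ≃+* 𝓞 K) {D : ZI} (hD : PS D) (h5 : D.norm % 8 = 5)
    {δ : K} (hδ : δ = algebraMap (𝓞 K) K (e D)) (P : (Wa (-δ ^ 2)).toAffine.Point) :
    ∃ v : Ker D, Cl (-δ ^ 2) (algebraMap (𝓞 K) K (e (el D v.1))) P := by
  letI : Algebra ZI K := ((algebraMap (𝓞 K) K).comp (e : ZI →+* 𝓞 K)).toAlgebra
  haveI : IsFractionRing ZI K := IsFractionRing.of_ringEquiv_left e (fun _ => rfl)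
  have hp := fam_PF hD.ne
  have hw := wt_sum hD h5
  have hal : ∀ z : ZI, algebraMap (𝓞 K) K (e z) = algebraMap ZI K z := fun z => rfl
  have hδ0 : δ ≠ 0 := by
    rw [hδ, Ne, map_eq_zero_iff _ (IsFractionRing.injective (𝓞 K) K), map_eq_zero_iff _ e.injective]
    exact hD.ne
  set j : K := algebraMap ZI K im1 with hj
  have hjj : j ^ 2 = -1 := by
    rw [hj, ← map_pow]
    have e1 : im1 ^ 2 = (-1 : ZI) := by decide
    rw [e1, map_neg, map_one]
  have sq_neg : IsSquare (-δ ^ 2 : K) := ⟨j * δ, by linear_combination -δ ^ 2 * hjj⟩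
  -- the trivial class
  obtain ⟨v0, hv0⟩ := ker_of (D := D) (S := ∅) (by
    intro v _
    simp)
  have e0 : algebraMap (𝓞 K) K (e (el D v0.1)) = 1 := by
    rw [hv0]
    unfold DD
    rw [Finset.prod_empty, map_one, map_one]
  obtain ⟨v1, hv1⟩ := ker_of (D := D) (S := Finset.univ) (by
    intro v _
    refine Finset.sum_eq_zero fun i _ => ?_
    rw [if_pos (Finset.mem_univ _), if_pos (Finset.mem_univ _)]
    have : (1 : ZMod 2) + 1 = 0 := by decide
    rw [this, mul_zero])
  have e1 : algebraMap (𝓞 K) K (e (el D v1.1)) = δ := by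
    rw [hv1, hD.DD, hδ]
  rcases P with _ | ⟨x, y, h⟩
  · refine ⟨v0, ?_⟩
    rw [e0]
    exact IsSquare.one
  · have hxy := eqn.1 h.1
    by_cases hy : y = 0
    · have h0 : x * ((x - δ) * (x + δ)) = 0 := by
        rw [hy] at hxy
        linear_combination -hxy
      rcases mul_eq_zero.1 h0 with h1 | h1
      · refine ⟨v0, ?_⟩
        rw [e0]
        refine Cl_some.2 ?_
        right
        refine ⟨h1, ?_⟩
        rw [one_mul]
        exact sq_neg
      · refine ⟨v1, ?_⟩
        rw [e1]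
        refine Cl_some.2 ?_
        left
        rcases mul_eq_zero.1 h1 with h2 | h2
        · have hx : x = δ := sub_eq_zero.1 h2
          rw [hx]
          exact ⟨hδ0, ⟨δ, rfl⟩⟩
        · have hx : x = -δ := eq_neg_of_add_eq_zero_left h2
          rw [hx]
          refine ⟨neg_ne_zero.2 hδ0, ?_⟩
          have : δ * -δ = -δ ^ 2 := by ring
          rw [this]
          exact sq_neg
    · have hxy' : y ^ 2 = x ^ 3 - (algebraMap ZI K (DD (fam D) Finset.univ)) ^ 2 * x := by
        rw [hD.DD, ← hal, ← hδ, hxy]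
        ring
      obtain ⟨S, w, -, hS, hx⟩ := sq_class (F := K) hp hw hy hxy'
      obtain ⟨v, hv⟩ := ker_of hS
      refine ⟨v, ?_⟩
      rw [hv]
      refine Cl_some.2 ?_
      left
      have hx0 : x ≠ 0 := by
        rintro rfl
        apply hy
        have : y ^ 2 = 0 := by rw [hxy]; ring
        exact pow_eq_zero_iff (two_ne_zero) |>.1 this
      refine ⟨hx0, ?_⟩
      rw [hal]
      refine ⟨algebraMap ZI K (DD (fam D) S) * w, ?_⟩
      rw [hx]
      ring

theorem el_ne (e : ZI ≃+* 𝓞 K) {D : ZI} (hD : PS D) (v : {π : ZI // π ∈ PD D} → ZMod 2) :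
    algebraMap (𝓞 K) K (e (el D v)) ≠ 0 := by
  rw [Ne, map_eq_zero_iff _ (IsFractionRing.injective (𝓞 K) K), map_eq_zero_iff _ e.injective]
  unfold el DD
  rw [Finset.prod_eq_zero_iff]
  rintro ⟨π, -, hπ⟩
  exact ((fam_PF hD.ne).pp π).pr.ne_zero hπ

/-- **the rank** -/
theorem rank_le [DecidableEq K] (e : ZI ≃+* 𝓞 K) {D : ZI} (hD : PS D) (h5 : D.norm % 8 = 5) {k : ℕ}
    (hk : nS (PD D) = 2 ^ (k + 1)) {δ : K} (hδ : δ = algebraMap (𝓞 K) K (e D)) :
    Module.finrank ℤ (Wa (-δ ^ 2)).toAffine.Point ≤ 2 * k := by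
  have hδ0 : δ ≠ 0 := by
    rw [hδ, Ne, map_eq_zero_iff _ (IsFractionRing.injective (𝓞 K) K), map_eq_zero_iff _ e.injective]
    exact hD.ne
  have h2 : (2 : K) ≠ 0 := two_ne_zero
  have ha : (-δ ^ 2 : K) ≠ 0 := neg_ne_zero.2 (pow_ne_zero 2 hδ0)
  have hDis : (Wa (-δ ^ 2)).Δ ≠ 0 := Wa_disc_ne h2 ha
  obtain ⟨i, hi⟩ : ∃ i : K, i ^ 2 = -1 := by
    refine ⟨algebraMap (𝓞 K) K (e im1), ?_⟩
    rw [← map_pow, ← map_pow]
    have e1 : im1 ^ 2 = (-1 : ZI) := by decide
    rw [e1, map_neg, map_neg, map_one, map_one]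
  have hfg : AddGroup.FG (Wa (-δ ^ 2)).toAffine.Point :=
    Pool.Agent.Q286.EQ.mordell_weil K (Wa (-δ ^ 2)) hDis
  have : Module.Finite ℤ (Wa (-δ ^ 2)).toAffine.Point := Module.Finite.iff_addGroup_fg.2 hfg
  choose f hf using exists_class e hD h5 hδ
  have hfin : Finite (Ker D) := Subtype.finite
  -- the points of order two
  have n0 : (Wa (-δ ^ 2)).toAffine.Nonsingular 0 0 := Pool.Agent.Y700.nonsing hDis (eqn.2 (by ring))
  have n1 : (Wa (-δ ^ 2)).toAffine.Nonsingular δ 0 := Pool.Agent.Y700.nonsing hDis (eqn.2 (by ring))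
  have n2 : (Wa (-δ ^ 2)).toAffine.Nonsingular (-δ) 0 :=
    Pool.Agent.Y700.nonsing hDis (eqn.2 (by ring))
  have hy0 : ∀ (x : K) (n : (Wa (-δ ^ 2)).toAffine.Nonsingular x 0),
      (WeierstrassCurve.Affine.Point.some x 0 n : (Wa (-δ ^ 2)).toAffine.Point) + .some x 0 n = 0 := by
    intro x n
    exact WeierstrassCurve.Affine.Point.add_of_Y_eq rfl (by rw [negY_eq, neg_zero])
  have hne : δ ≠ -δ := by
    intro h
    apply hδ0
    have h3 : 2 * δ = 0 := by linear_combination h
    exact (mul_eq_zero.1 h3).resolve_left h2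
  refine rank_le_four (phi hi hDis) (J hi hDis) (phi_phi hi hDis) (J_surj hi hDis)
    (T := Ker D) f (fun P Q h => ?_)
    ({0, .some 0 0 n0, .some δ 0 n1, .some (-δ) 0 n2} : Finset (Wa (-δ ^ 2)).toAffine.Point)
    (fun P hP => ?_) ?_ (k := k) ?_
  · have h3 := hf P
    have h4 := hf Q
    rw [h] at h3
    exact sub_mem h2 ha hi hDis (el_ne e hD _) h3 h4
  · simp only [Finset.mem_insert, Finset.mem_singleton] at hP
    rcases hP with rfl | rfl | rfl | rfl
    · exact add_zero _
    · exact hy0 _ _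
    · exact hy0 _ _
    · exact hy0 _ _
  · have hz : ∀ (x : K) (n : (Wa (-δ ^ 2)).toAffine.Nonsingular x 0),
        (0 : (Wa (-δ ^ 2)).toAffine.Point) ≠ .some x 0 n := fun x n h =>
      WeierstrassCurve.Affine.Point.some_ne_zero _ h.symm
    rw [Finset.card_insert_of_notMem, Finset.card_insert_of_notMem, Finset.card_pair]
    · intro h
      rw [WeierstrassCurve.Affine.Point.some.injEq] at h
      exact hne h.1
    · rw [Finset.mem_insert, Finset.mem_singleton]
      rintro (h | h)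
      · rw [WeierstrassCurve.Affine.Point.some.injEq] at h
        exact hδ0 h.1.symm
      · rw [WeierstrassCurve.Affine.Point.some.injEq] at h
        exact hδ0 (neg_eq_zero.1 h.1.symm)
    · rw [Finset.mem_insert, Finset.mem_insert, Finset.mem_singleton]
      rintro (h | h | h)
      · exact hz _ _ h
      · exact hz _ _ h
      · exact hz _ _ h
  · rw [card_Ker, hk]

end rank

end Pool.Agent.U695.XR
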