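import Pool.Agent.U695.XR.Cm

/-!
# XR: the rank and the index of the image of an endomorphism
-/

set_option autoImplicit false

namespace Pool.Agent.U695.XR

open Module

theorem index_le {A : Type} [AddCommGroup A] (H : AddSubgroup A) {T : Type} [Finite T] (f : A → T)
    (hf : ∀ P Q, f P = f Q → P - Q ∈ H) : H.index ≤ Nat.card T ∧ H.index ≠ 0 := by
  have hinj : Function.Injective (fun q : A ⧸ H => f (Quotient.out q)) := by
    intro q q' h
    have h1 := hf _ _ h
    rw [← Quotient.out_eq q, ← Quotient.out_eq q']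
    refine QuotientAddGroup.eq.2 ?_
    have h2 := H.neg_mem h1
    rwa [neg_sub, sub_eq_neg_add] at h2
  have hfin : Finite (A ⧸ H) := Finite.of_injective _ hinj
  have h1 : H.index = Nat.card (A ⧸ H) := rfl
  rw [h1]
  exact ⟨Nat.card_le_card_of_injective _ hinj, Nat.card_pos.ne'⟩

theorem range_two {A : Type} [AddCommGroup A] (φ J : A →+ A) (h : ∀ P, φ (φ P) = J P + J P)
    (hJ : Function.Surjective J) : (zsmulAddGroupHom (α := A) 2).range = φ.range.map φ := by
  ext P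
  constructor
  · rintro ⟨Q, rfl⟩
    obtain ⟨R, rfl⟩ := hJ Q
    refine ⟨φ R, ⟨R, rfl⟩, ?_⟩
    rw [h]
    show J R + J R = (2 : ℤ) • J R
    rw [two_zsmul]
  · rintro ⟨_, ⟨R, rfl⟩, rfl⟩
    refine ⟨J R, ?_⟩
    rw [h]
    show (2 : ℤ) • J R = J R + J R
    rw [two_zsmul]

/-- `2 ^ rank * |A[2]| ≤ (number of classes) ²` -/
theorem rank_index {A : Type} [AddCommGroup A] [Module.Finite ℤ A] (φ J : A →+ A)
    (h : ∀ P, φ (φ P) = J P + J P) (hJ : Function.Surjective J) {T : Type} [Finite T] (f : A → T)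
    (hf : ∀ P Q, f P = f Q → P - Q ∈ φ.range) :
    2 ^ (finrank ℤ A) * Nat.card ((zsmulAddGroupHom (α := A) 2).ker) =
      (φ.range ⊔ φ.ker).index * φ.range.index ∧ φ.range.index ≤ Nat.card T ∧ φ.range.index ≠ 0 := by
  obtain ⟨h1, h2⟩ := index_le φ.range f hf
  refine ⟨?_, h1, h2⟩
  have h3 := Pool.Agent.TeamU.card_quot_two A
  rw [← h3]
  have h4 : Nat.card (A ⧸ (zsmulAddGroupHom (α := A) 2).range) =
      (zsmulAddGroupHom (α := A) 2).range.index := rfl
  rw [h4, range_two φ J h hJ, AddSubgroup.index_map]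

theorem card_two_ge {A : Type} [AddCommGroup A] [Finite ((zsmulAddGroupHom (α := A) 2).ker)]
    (S : Finset A) (hS : ∀ P ∈ S, P + P = 0) : S.card ≤ Nat.card ((zsmulAddGroupHom (α := A) 2).ker) := by
  have h1 : S.card = Nat.card S := by rw [Nat.card_eq_fintype_card, Fintype.card_coe]
  rw [h1]
  refine Nat.card_le_card_of_injective
    (fun P : S => (⟨P.1, by
      show (2 : ℤ) • P.1 = 0
      rw [two_zsmul]
      exact hS _ P.2⟩ : (zsmulAddGroupHom (α := A) 2).ker)) ?_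
  intro P Q h
  exact Subtype.ext (congrArg (fun z : (zsmulAddGroupHom (α := A) 2).ker => (z : A)) h)

/-- the bound for the rank if there are four points killed by two -/
theorem rank_le_four {A : Type} [AddCommGroup A] [Module.Finite ℤ A] (φ J : A →+ A)
    (h : ∀ P, φ (φ P) = J P + J P) (hJ : Function.Surjective J) {T : Type} [Finite T] (f : A → T)
    (hf : ∀ P Q, f P = f Q → P - Q ∈ φ.range) (S : Finset A) (hS : ∀ P ∈ S, P + P = 0)
    (hc : 4 ≤ S.card) {k : ℕ} (hT : Nat.card T = 2 ^ (k + 1)) : finrank ℤ A ≤ 2 * k := by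
  obtain ⟨h1, h2, h3⟩ := rank_index φ J h hJ f hf
  have h4 : (φ.range ⊔ φ.ker).index ≤ φ.range.index :=
    Nat.le_of_dvd (Nat.pos_of_ne_zero h3) (AddSubgroup.index_dvd_of_le le_sup_left)
  have h5 : (φ.range ⊔ φ.ker).index ≠ 0 := by
    intro h6
    have h7 := AddSubgroup.index_dvd_of_le (le_sup_left : φ.range ≤ φ.range ⊔ φ.ker)
    rw [h6] at h7
    exact h3 (zero_dvd_iff.1 h7)
  have h6 : Nat.card ((zsmulAddGroupHom (α := A) 2).ker) ≠ 0 := by
    intro h7
    rw [h7, mul_zero] at h1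
    exact (mul_ne_zero h5 h3) h1.symm
  have hfin : Finite ((zsmulAddGroupHom (α := A) 2).ker) := Nat.finite_of_card_ne_zero h6
  have h7 := hc.trans (card_two_ge S hS)
  rw [hT] at h2
  have h8 : 2 ^ (finrank ℤ A) * 4 ≤ 2 ^ (k + 1) * 2 ^ (k + 1) := by
    calc 2 ^ (finrank ℤ A) * 4 ≤ 2 ^ (finrank ℤ A) * Nat.card ((zsmulAddGroupHom (α := A) 2).ker) :=
          Nat.mul_le_mul_left _ h7
      _ = (φ.range ⊔ φ.ker).index * φ.range.index := h1
      _ ≤ _ := Nat.mul_le_mul (h4.trans h2) h2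
  have h9 : 2 ^ (finrank ℤ A) * 2 ^ 2 ≤ 2 ^ (2 * k) * 2 ^ 2 := by
    calc 2 ^ (finrank ℤ A) * 2 ^ 2 ≤ 2 ^ (k + 1) * 2 ^ (k + 1) := h8
      _ = 2 ^ (2 * k) * 2 ^ 2 := by ring
  have h10 := Nat.le_of_mul_le_mul_right h9 (by norm_num)
  exact (Nat.pow_le_pow_iff_right (by norm_num)).1 h10

/-- the bound for the rank if there is a point of the kernel which is not in the image -/
theorem rank_le_two {A : Type} [AddCommGroup A] [Module.Finite ℤ A] (φ J : A →+ A)
    (h : ∀ P, φ (φ P) = J P + J P) (hJ : Function.Surjective J) {T : Type} [Finite T] (f : A → T)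
    (hf : ∀ P Q, f P = f Q → P - Q ∈ φ.range) (P₀ : A) (h0 : P₀ ∈ φ.ker) (h0' : P₀ ∉ φ.range)
    (h02 : P₀ + P₀ = 0) {k : ℕ} (hT : Nat.card T = 2 ^ (k + 1)) : finrank ℤ A ≤ 2 * k := by
  obtain ⟨h1, h2, h3⟩ := rank_index φ J h hJ f hf
  have hdvd := AddSubgroup.index_dvd_of_le (le_sup_left : φ.range ≤ φ.range ⊔ φ.ker)
  have h5 : (φ.range ⊔ φ.ker).index ≠ 0 := by
    intro h6
    rw [h6] at hdvd
    exact h3 (zero_dvd_iff.1 hdvd)
  have h6 : Nat.card ((zsmulAddGroupHom (α := A) 2).ker) ≠ 0 := by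
    intro h7
    rw [h7, mul_zero] at h1
    exact (mul_ne_zero h5 h3) h1.symm
  have hfin : Finite ((zsmulAddGroupHom (α := A) 2).ker) := Nat.finite_of_card_ne_zero h6
  have hP0 : P₀ ≠ 0 := by
    rintro rfl
    exact h0' (zero_mem _)
  have h7 : 2 ≤ Nat.card ((zsmulAddGroupHom (α := A) 2).ker) := by
    classical
    have h8 := card_two_ge ({0, P₀} : Finset A) (by
      intro P hP
      rw [Finset.mem_insert, Finset.mem_singleton] at hP
      rcases hP with rfl | rfl
      · exact add_zero _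
      · exact h02)
    rwa [Finset.card_pair hP0.symm] at h8
  have h8 : 2 * (φ.range ⊔ φ.ker).index ≤ φ.range.index := by
    obtain ⟨m, hm⟩ := hdvd
    rcases Nat.lt_or_ge m 2 with hm2 | hm2
    · exfalso
      have hm1 : m = 1 := by
        rcases Nat.lt_or_ge m 1 with h9 | h9
        · have : m = 0 := by omega
          rw [this, mul_zero] at hm
          exact absurd hm h3
        · omega
      rw [hm1, mul_one] at hm
      have h9 : φ.range = φ.range ⊔ φ.ker := by
        have h10 := AddSubgroup.relIndex_mul_index (le_sup_left : φ.range ≤ φ.range ⊔ φ.ker)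
        rw [hm] at h10
        have h11 : φ.range.relIndex (φ.range ⊔ φ.ker) = 1 := by
          have h12 : φ.range.relIndex (φ.range ⊔ φ.ker) * (φ.range ⊔ φ.ker).index =
              1 * (φ.range ⊔ φ.ker).index := by rw [h10, one_mul]
          exact Nat.eq_of_mul_eq_mul_right (Nat.pos_of_ne_zero h5) h12
        exact le_antisymm le_sup_left (AddSubgroup.relIndex_eq_one.1 h11)
      apply h0'
      rw [h9]
      exact (le_sup_right : φ.ker ≤ φ.range ⊔ φ.ker) h0
    · rw [hm]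
      calc 2 * (φ.range ⊔ φ.ker).index ≤ m * (φ.range ⊔ φ.ker).index := Nat.mul_le_mul_right _ hm2
        _ = _ := mul_comm _ _
  rw [hT] at h2
  have h9 : 2 ^ (finrank ℤ A) * 2 ^ 2 ≤ 2 ^ (2 * k) * 2 ^ 2 := by
    calc 2 ^ (finrank ℤ A) * 2 ^ 2 = 2 * (2 ^ (finrank ℤ A) * 2) := by ring
      _ ≤ 2 * (2 ^ (finrank ℤ A) * Nat.card ((zsmulAddGroupHom (α := A) 2).ker)) :=
          Nat.mul_le_mul_left _ (Nat.mul_le_mul_left _ h7)
      _ = (2 * (φ.range ⊔ φ.ker).index) * φ.range.index := by rw [h1, mul_assoc]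
      _ ≤ 2 ^ (k + 1) * 2 ^ (k + 1) := Nat.mul_le_mul (h8.trans h2) h2
      _ = 2 ^ (2 * k) * 2 ^ 2 := by ring
  have h10 := Nat.le_of_mul_le_mul_right h9 (by norm_num)
  exact (Nat.pow_le_pow_iff_right (by norm_num)).1 h10

end Pool.Agent.U695.XR
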